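import Pool.Agent.Helper88.QT.St2
import Pool.Agent.Helper85.QT.St1

/-!
# Project QT, module EXC: the excursion sum
-/

set_option autoImplicit false

open MeasureTheory Matrix Set Topology
open scoped ENNReal ComplexConjugate

namespace Pool.Agent.Helper47.QT

open Pool.Agent.Helper88.QT Pool.Agent.Helper85.QT Pool.Agent.Helper86.QA
open Pool.Agent.Helper35.PM (hs)

private lemma hs_ge (A : SL) : 1 ≤ hs (A : Mat) := by
  have hdet : A 0 0 * A 1 1 - A 0 1 * A 1 0 = 1 := by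
    have h := A.det_coe
    rw [Matrix.det_fin_two] at h
    exact h
  have h1 : (1 : ℝ) ≤ ‖A 0 0‖ * ‖A 1 1‖ + ‖A 0 1‖ * ‖A 1 0‖ := by
    calc (1 : ℝ) = ‖A 0 0 * A 1 1 - A 0 1 * A 1 0‖ := by rw [hdet, norm_one]
      _ ≤ ‖A 0 0 * A 1 1‖ + ‖A 0 1 * A 1 0‖ := norm_sub_le _ _
      _ = _ := by rw [norm_mul, norm_mul]
  have h2 : hs (A : Mat) = ‖A 0 0‖ ^ 2 + ‖A 0 1‖ ^ 2 + (‖A 1 0‖ ^ 2 + ‖A 1 1‖ ^ 2) := by
    simp [hs, Fin.sum_univ_two]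
  rw [h2]
  nlinarith [sq_nonneg (‖A 0 0‖ - ‖A 1 1‖), sq_nonneg (‖A 0 1‖ - ‖A 1 0‖)]

private lemma sum_s {Γ : Type} [Group Γ] (ρ : Γ →* SL) (s σ : ℝ) (h : σ ≤ s)
    (hS : Summable (fun γ : Γ => hs (ρ γ) ^ (-σ))) :
    Summable (fun γ : Γ => hs (ρ γ) ^ (-s)) := by
  refine Summable.of_nonneg_of_le (fun γ => ?_) (fun γ => ?_) hS
  · exact Real.rpow_nonneg (by linarith [hs_ge (ρ γ)]) _
  · exact Real.rpow_le_rpow_of_exponent_le (hs_ge (ρ γ)) (by linarith)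

private lemma tsum_ps {Γ : Type} [Group Γ] (ρ : Γ →* SL) (s c : ℝ) (hc : 0 ≤ c) (x y : Pt) :
    ∑' g : Γ, ENNReal.ofReal (c * ch x (ga (ρ g) y) ^ (-s)) = ENNReal.ofReal c * PS ρ s x y := by
  unfold PS
  rw [← ENNReal.tsum_mul_left]
  refine tsum_congr fun g => ?_
  rw [ENNReal.ofReal_mul hc]
  rfl

private lemma small (k m s σ K : ℝ) (_hK : 0 ≤ K) (hm : 1 ≤ m) (h1 : 1 ≤ σ) (h2 : σ < s)
    (CW CP CR : ℝ) (hW : 0 < CW) (hP : 0 < CP) (hKe : K = (CR * 66) ^ 2 * CP * CW)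
    (h : (1 + 2 * K) * k ^ 2 ≤ m * (s - σ) ^ 3) :
    k ^ 2 * ((CR * 66) ^ 2 * (CP / (s - σ) ^ 2)) * (CW / (m * (s - 1))) ≤ 1 / 2 := by
  have d0 : 0 < s - σ := by linarith
  have d1 : 0 < s - 1 := by linarith
  have m0 : 0 < m := by linarith
  have e1 : k ^ 2 * ((CR * 66) ^ 2 * (CP / (s - σ) ^ 2)) * (CW / (m * (s - 1)))
      = K * k ^ 2 / (m * (s - σ) ^ 2 * (s - 1)) := by
    rw [hKe]
    field_simp
  rw [e1, div_le_iff₀ (by positivity)]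
  have e2 : m * (s - σ) ^ 3 ≤ m * (s - σ) ^ 2 * (s - 1) := by
    have : 0 ≤ m * (s - σ) ^ 2 * (σ - 1) :=
      mul_nonneg (by positivity) (by linarith)
    nlinarith
  have e3 : 0 ≤ k ^ 2 := sq_nonneg k
  nlinarith

theorem hEXC (_hACT : Pool.Agent.Helper86.QA.StACT) (_hCHI : Pool.Agent.Helper86.QA.StCHI)
    (hXPT : Pool.Agent.Helper88.QT.StXPT) (hZS2 : Pool.Agent.Helper88.QT.StZS2)
    (hPK3 : Pool.Agent.Helper85.QT.StPK3) (hWSM : Pool.Agent.Helper88.QT.StWSM)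
    (hPSF : Pool.Agent.Helper88.QT.StPSF) (hREC : Pool.Agent.Helper88.QT.StREC)
    (hCHN : Pool.Agent.Helper88.QT.StCHN) : Pool.Agent.Helper88.QT.StEXC := by
  obtain ⟨CR, hCR, hRec⟩ := hREC
  obtain ⟨CP, hCP, hPk⟩ := hPK3 (1 / 10 ^ 7) (by norm_num) (by norm_num)
  obtain ⟨CW, hCW, hWs⟩ := hWSM
  obtain ⟨K, hK⟩ : ∃ K, K = (CR * 66) ^ 2 * CP * CW := ⟨_, rfl⟩
  have hK0 : 0 ≤ K := by rw [hK]; positivity
  refine ⟨1 + 2 * K, by linarith, ?_⟩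
  intro Γ _ ρ A B α lam M G m φ C3 hAnn hlam hm k ξ hξ hcov s σ h1 h2 h3 hS hk o ho D hD
  have hre := hAnn.re
  have hm1 := hAnn.m1
  have hlam0 : lam ≠ 0 := by
    intro h
    rw [h, Complex.zero_re] at hre
    exact lt_irrefl _ hre
  have hlam4 : ‖lam‖ ≤ 1 / 400 := by linarith
  have hs1 : 1 < s := by linarith
  have hS' := sum_s ρ s σ h2.le hS
  have hcz : 2 * cz * ‖lam‖ ≤ 1 := by
    unfold cz
    linarith
  have hcz0 : 0 < 2 * cz := by unfold cz; norm_num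
  have hxp : ∀ y, xp lam (2 * cz) (ξ y) ∈ up ∧ TT lam (xp lam (2 * cz) (ξ y)) = 2 * cz := by
    intro y
    obtain ⟨a1, a2, -⟩ := (hXPT lam hlam0).1 (2 * cz) (ξ y) hcz0 hcz (hξ y).2
    exact ⟨a1, a2⟩
  have hz2 := (hZS2 Γ ρ A B α lam M G m φ C3 hAnn (hm1.trans hm) hlam4).2
  have hPS : ∀ y y', PS ρ s (xp lam (2 * cz) (ξ y)) (xp lam (2 * cz) (ξ y')) ≤
      ENNReal.ofReal (CP / (s - σ) ^ 2) := fun y y' =>
    hPk Γ ρ A B hAnn.kd s σ h1 h2 h3 hS _ (hxp y).1 _ (hxp y').1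
      (fun γ hγ z hz hc => hz2 _ (hxp y).1 (hxp y).2 γ hγ z hz hc)
      (fun γ hγ z hz hc => hz2 _ (hxp y').1 (hxp y').2 γ hγ z hz hc)
  have hrecy := fun y => hRec Γ ρ A B α lam M G m φ C3 hAnn hlam k ξ hξ hcov s (by linarith) h3 o ho
    D hD (xp lam (2 * cz) (ξ y)) (hxp y).1 66 (by norm_num)
  have hreco := hRec Γ ρ A B α lam M G m φ C3 hAnn hlam k ξ hξ hcov s (by linarith) h3 o ho
    D hD o ho D hD
  have hfin : ∀ x ∈ up, ∀ y ∈ up, PS ρ s x y < ∞ := hPSF Γ ρ s (by linarith) hS'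
  obtain ⟨P0, hP0⟩ : ∃ P0 : ℝ≥0∞, P0 = ∑ y : Fin k, ENNReal.ofReal ((CR * 66 * D) ^ 2) *
      PS ρ s (xp lam (2 * cz) (ξ y)) o := ⟨_, rfl⟩
  have hP0f : P0 ≠ ∞ := by
    rw [hP0]
    exact ENNReal.sum_ne_top.2 fun y _ =>
      ENNReal.mul_ne_top ENNReal.ofReal_ne_top (hfin _ (hxp y).1 _ ho).ne
  obtain ⟨Q', hQ'⟩ : ∃ Q' : ℝ≥0∞, Q' = ∑ y : Fin k, ENNReal.ofReal ((CR * D) ^ 2) *
      PS ρ s o (xp lam (2 * cz) (ξ y)) := ⟨_, rfl⟩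
  have hQ'f : Q' ≠ ∞ := by
    rw [hQ']
    exact ENNReal.sum_ne_top.2 fun y _ =>
      ENNReal.mul_ne_top ENNReal.ofReal_ne_top (hfin _ ho _ (hxp y).1).ne
  obtain ⟨P', hP'⟩ : ∃ P' : ℝ≥0∞, P' = ENNReal.ofReal ((CR * D * D) ^ 2) * PS ρ s o o := ⟨_, rfl⟩
  have hP'f : P' ≠ ∞ := by
    rw [hP']
    exact ENNReal.mul_ne_top ENNReal.ofReal_ne_top (hfin _ ho _ ho).ne
  obtain ⟨Q, hQ⟩ : ∃ Q : ℝ≥0∞, Q = ENNReal.ofReal ((CR * 66) ^ 2) *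
      ENNReal.ofReal (CP / (s - σ) ^ 2) := ⟨_, rfl⟩
  obtain ⟨W, hW⟩ : ∃ W : ℝ≥0∞, W = ENNReal.ofReal (CW / (m * (s - 1))) := ⟨_, rfl⟩
  have hWf : W ≠ ∞ := by
    rw [hW]
    exact ENNReal.ofReal_ne_top
  have hsm : (k : ℝ≥0∞) ^ 2 * Q * W ≤ 1 / 2 := by
    have e0 := small (k : ℝ) m s σ K hK0 hm1 h1 h2 CW CP CR hCW hCP hK hk
    have e1 : (k : ℝ≥0∞) ^ 2 * Q * W = ENNReal.ofReal ((k : ℝ) ^ 2 * ((CR * 66) ^ 2 *
        (CP / (s - σ) ^ 2)) * (CW / (m * (s - 1)))) := by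
      have a1 : 0 ≤ (CR * 66) ^ 2 * (CP / (s - σ) ^ 2) := by positivity
      have a2 : (k : ℝ≥0∞) ^ 2 = ENNReal.ofReal ((k : ℝ) ^ 2) := by
        rw [ENNReal.ofReal_pow (Nat.cast_nonneg k), ENNReal.ofReal_natCast]
      rw [hQ, hW, a2, ENNReal.ofReal_mul (mul_nonneg (by positivity) a1),
        ENNReal.ofReal_mul (by positivity), ENNReal.ofReal_mul (by positivity)]
    rw [e1]
    refine (ENNReal.ofReal_le_ofReal e0).trans ?_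
    rw [ENNReal.ofReal_div_of_pos (by norm_num), ENNReal.ofReal_one]
    norm_num
  obtain ⟨-, hchn⟩ := hCHN Γ α k
    (fun N y g => EN ρ A B α lam m s (xp lam (2 * cz) (ξ y)) 66 o D N g)
    (fun y g => ENNReal.ofReal ((CR * 66 * D) ^ 2 *
      ch (xp lam (2 * cz) (ξ y)) (ga (ρ g) o) ^ (-s)))
    (fun x g₁ y => ENNReal.ofReal ((CR * 66) ^ 2 *
      ch (xp lam (2 * cz) (ξ x)) (ga (ρ g₁) (xp lam (2 * cz) (ξ y))) ^ (-s)))
    (fun y n y' => ENNReal.ofReal ((Real.exp (om lam m (ξ y) (Complex.exp (n * lam) * ξ y') / 4)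
      - 1) * ch (xp lam (2 * cz) (ξ y)) (xp lam (2 * cz) (Complex.exp (n * lam) * ξ y')) ^ (-s)))
    P0 Q W (fun x g => (hrecy x).1 g) (fun N x g => (hrecy x).2 N g)
    (fun x => by
      rw [tsum_ps ρ s _ (by positivity), hP0]
      exact Finset.single_le_sum (f := fun y : Fin k => ENNReal.ofReal ((CR * 66 * D) ^ 2) *
        PS ρ s (xp lam (2 * cz) (ξ y)) o) (fun _ _ => zero_le) (Finset.mem_univ x))
    (fun x y => by
      rw [tsum_ps ρ s _ (by positivity), hQ]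
      exact mul_le_mul_right (hPS x y) _)
    (fun y y' => by
      rw [hW]
      exact hWs lam m hre hlam4 hm1 hm s hs1 h3 (ξ y) (ξ y') (hξ y).2 (hξ y').2)
    hsm
  have hall := hchn (fun N g => EN ρ A B α lam m s o D o D N g)
    (fun g => ENNReal.ofReal ((CR * D * D) ^ 2 * ch o (ga (ρ g) o) ^ (-s)))
    (fun g₁ y => ENNReal.ofReal ((CR * D) ^ 2 *
      ch o (ga (ρ g₁) (xp lam (2 * cz) (ξ y))) ^ (-s)))
    P' Q' (fun g => hreco.1 g) (fun N g => hreco.2 N g)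
    (by rw [tsum_ps ρ s _ (by positivity), hP'])
    (fun y => by
      rw [tsum_ps ρ s _ (by positivity), hQ']
      exact Finset.single_le_sum (f := fun y : Fin k => ENNReal.ofReal ((CR * D) ^ 2) *
        PS ρ s o (xp lam (2 * cz) (ξ y))) (fun _ _ => zero_le) (Finset.mem_univ y))
  obtain ⟨S, hSd⟩ : ∃ S : ℝ≥0∞, S = P' + (k : ℝ≥0∞) ^ 2 * Q' * W * (2 * P0) := ⟨_, rfl⟩
  rw [← hSd] at hall
  have hSf : S ≠ ∞ := by
    rw [hSd]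
    refine ENNReal.add_ne_top.2 ⟨hP'f, ?_⟩
    refine ENNReal.mul_ne_top (ENNReal.mul_ne_top (ENNReal.mul_ne_top ?_ hQ'f) hWf)
      (ENNReal.mul_ne_top (by norm_num) hP0f)
    exact ENNReal.pow_ne_top (ENNReal.natCast_ne_top k)
  refine ⟨S.toReal, ?_⟩
  intro P a b u l hP
  rw [← ENNReal.ofReal_le_iff_le_toReal hSf,
    ENNReal.ofReal_sum_of_nonneg (fun γ _ => (Real.exp_pos _).le)]
  obtain ⟨N, hN⟩ : ∃ N : ℕ, N = P.sup (fun γ => (Cr ρ α lam (a γ) (b γ) (u γ) (u γ + l γ)).ncard) :=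
    ⟨_, rfl⟩
  refine le_trans ?_ (hall N)
  refine le_trans ?_ (ENNReal.sum_le_tsum P)
  refine Finset.sum_le_sum fun γ hγ => ?_
  obtain ⟨b1, b2, b3⟩ := hP γ hγ
  have hle : (Cr ρ α lam (a γ) (b γ) (u γ) (u γ + l γ)).ncard ≤ N := by
    rw [hN]
    exact Finset.le_sup (f := fun γ => (Cr ρ α lam (a γ) (b γ) (u γ) (u γ + l γ)).ncard) hγ
  unfold EN
  refine le_iSup₂_of_le ((a γ, b γ), (u γ, u γ + l γ)) ⟨b1, hle, b2, b3⟩ ?_
  have e1 : (u γ + l γ) - u γ = l γ := by ring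
  simp only [e1]
  exact le_rfl

end Pool.Agent.Helper47.QT
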